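import Pool.Agent.Helper56.FinalOrders

/-!
# The numbers of orders of groups

A positive integer `n` is the number of orders (bi-invariant total orders) of some group if and only
if `n = 1` or `n` is even. In particular there is a group with exactly `2 k` orders for every
positive integer `k`.
-/

set_option autoImplicit false

namespace Pool.Agent.Results.MP_7c6b96_al.NumberOfOrders

/-- `r` is a total order on the set `G`, invariant under multiplication on both sides -/
def IsBiOrder {G : Type*} [Group G] (r : G → G → Prop) : Prop :=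
  (∀ a, r a a) ∧ (∀ a b, r a b → r b a → a = b) ∧ (∀ a b c, r a b → r b c → r a c) ∧
    (∀ a b, r a b ∨ r b a) ∧ ∀ a b c, r a b → r (c * a) (c * b) ∧ r (a * c) (b * c)

theorem isBiOrder_iff {G : Type*} [Group G] (r : G → G → Prop) :
    IsBiOrder r ↔ IsLinearOrder G r ∧ ∀ a b c d : G, r a b → r (c * a * d) (c * b * d) := by
  constructor
  · rintro ⟨h1, h2, h3, h4, h5⟩
    refine ⟨{ refl := h1, trans := h3, antisymm := h2, total := h4 }, ?_⟩
    intro a b c d h
    exact (h5 _ _ d (h5 a b c h).1).2
  · rintro ⟨hr, hinv⟩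
    refine ⟨fun a => hr.toIsPartialOrder.toIsPreorder.toRefl.refl a,
      fun a b => hr.toIsPartialOrder.toAntisymm.antisymm a b,
      fun a b c => hr.toIsPartialOrder.toIsPreorder.toIsTrans.trans a b c,
      fun a b => hr.toTotal.total a b, fun a b c h => ⟨?_, ?_⟩⟩
    · simpa using hinv a b c 1 h
    · simpa using hinv a b 1 c h

theorem card_eq {G : Type} [Group G] {n : ℕ}
    (h : {P : Set G | Pool.Agent.Helper56.IsCone P}.encard = (n : ℕ∞)) :
    Nat.card {r : G → G → Prop // IsBiOrder r} = n := by
  have h1 : {r : G → G → Prop | IsBiOrder r} = {r : G → G → Prop | IsLinearOrder G r ∧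
      ∀ a b c d : G, r a b → r (c * a * d) (c * b * d)} := by
    ext r
    exact isBiOrder_iff r
  have h2 : {r : G → G → Prop | IsBiOrder r}.encard = (n : ℕ∞) := by
    rw [h1, Pool.Agent.Helper56.encard_orders]
    exact h
  have h3 : {r : G → G → Prop | IsBiOrder r}.ncard = n := by
    rw [Set.ncard, h2]
    simp
  exact h3

theorem transport {A B : Type*} [Group A] [Group B] (f : A ≃* B) (r : B → B → Prop)
    (h : IsBiOrder r) : IsBiOrder fun a b : A => r (f a) (f b) := by
  obtain ⟨h1, h2, h3, h4, h5⟩ := h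
  refine ⟨fun a => h1 _, fun a b hab hba => f.injective (h2 _ _ hab hba),
    fun a b c hab hbc => h3 _ _ _ hab hbc, fun a b => h4 _ _, fun a b c hab => ?_⟩
  simp only [map_mul]
  exact h5 _ _ _ hab

/-- isomorphic groups have the same number of orders -/
theorem card_congr {G H : Type*} [Group G] [Group H] (e : G ≃* H) :
    Nat.card {r : G → G → Prop // IsBiOrder r} = Nat.card {r : H → H → Prop // IsBiOrder r} := by
  refine Nat.card_congr ⟨fun r => ⟨fun a b => r.1 (e.symm a) (e.symm b), ?_⟩,
    fun r => ⟨fun a b => r.1 (e a) (e b), ?_⟩, ?_, ?_⟩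
  · exact transport e.symm r.1 r.2
  · exact transport e r.1 r.2
  · intro r
    apply Subtype.ext
    funext a b
    simp
  · intro r
    apply Subtype.ext
    funext a b
    simp

theorem even_card {G : Type*} [Group G] [Nontrivial G]
    (h : 0 < Nat.card {r : G → G → Prop // IsBiOrder r}) :
    Even (Nat.card {r : G → G → Prop // IsBiOrder r}) := by
  classical
  have : Finite {r : G → G → Prop // IsBiOrder r} := Nat.finite_of_card_ne_zero h.ne'
  haveI : Fintype {r : G → G → Prop // IsBiOrder r} := Fintype.ofFinite _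
  have hrev : ∀ r : G → G → Prop, IsBiOrder r → IsBiOrder (fun a b => r b a) := by
    rintro r ⟨h1, h2, h3, h4, h5⟩
    exact ⟨h1, fun a b hab hba => h2 a b hba hab, fun a b c hab hbc => h3 c b a hbc hab,
      fun a b => h4 b a, fun a b c hab => h5 b a c hab⟩
  have hsum : ∑ _x : {r : G → G → Prop // IsBiOrder r}, (1 : ZMod 2) = 0 := by
    refine Finset.sum_involution (fun r _ => ⟨fun a b => r.1 b a, hrev r.1 r.2⟩) ?_ ?_ ?_ ?_
    · intro r _
      decide
    · intro r _ _ he
      obtain ⟨x, y, hxy⟩ := exists_pair_ne G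
      have h1 : ∀ a b, r.1 b a ↔ r.1 a b := by
        intro a b
        have := congrArg (fun s : {r : G → G → Prop // IsBiOrder r} => s.1 a b) he
        exact iff_of_eq this
      rcases r.2.2.2.2.1 x y with h | h
      · exact hxy (r.2.2.1 x y h ((h1 x y).2 h))
      · exact hxy (r.2.2.1 x y ((h1 x y).1 h) h)
    · intro r _
      exact Finset.mem_univ _
    · intro r _
      rfl
  rw [Finset.sum_const, Finset.card_univ, nsmul_eq_mul, mul_one] at hsum
  rw [Nat.card_eq_fintype_card, even_iff_two_dvd]
  exact (ZMod.natCast_eq_zero_iff _ 2).1 hsum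

universe u

/-- A positive integer `n` is the number of orders of some group if and only if `n = 1` or `n` is
even. -/
theorem result (n : ℕ) (hn : 0 < n) :
    (∃ (G : Type u) (_ : Group G), Nat.card {r : G → G → Prop // IsBiOrder r} = n) ↔
      n = 1 ∨ Even n := by
  constructor
  · rintro ⟨G, inst, rfl⟩
    rcases subsingleton_or_nontrivial G with hG | hG
    · left
      rw [Nat.card_eq_one_iff_unique]
      refine ⟨⟨?_⟩, ⟨⟨fun _ _ => True, ?_⟩⟩⟩
      · rintro ⟨r, hr⟩ ⟨s, hs⟩
        apply Subtype.ext
        funext a b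
        rw [Subsingleton.elim b a]
        exact propext ⟨fun _ => hs.1 a, fun _ => hr.1 a⟩
      · exact ⟨fun _ => trivial, fun a b _ _ => Subsingleton.elim a b, fun _ _ _ _ _ => trivial,
          fun _ _ => Or.inl trivial, fun _ _ _ _ => ⟨trivial, trivial⟩⟩
    · right
      exact even_card hn
  · rintro (rfl | ⟨k, rfl⟩)
    · refine ⟨PUnit, inferInstance, ?_⟩
      rw [Nat.card_eq_one_iff_unique]
      refine ⟨⟨?_⟩, ⟨⟨fun _ _ => True, ?_⟩⟩⟩
      · rintro ⟨r, hr⟩ ⟨s, hs⟩
        apply Subtype.ext
        funext a b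
        exact propext ⟨fun _ => hs.1 a, fun _ => hr.1 a⟩
      · exact ⟨fun _ => trivial, fun _ _ _ _ => rfl, fun _ _ _ _ _ => trivial,
          fun _ _ => Or.inl trivial, fun _ _ _ _ => ⟨trivial, trivial⟩⟩
    · obtain ⟨G, inst, hG⟩ := Pool.Agent.Helper56.main_count k (by omega)
      refine ⟨ULift.{u} G, inferInstance, ?_⟩
      rw [card_congr (MulEquiv.ulift : ULift.{u} G ≃* G), card_eq hG]
      ring

end Pool.Agent.Results.MP_7c6b96_al.NumberOfOrders
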